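import Mathlib
import Pool.Agent.Q175.GEq

/-!
# Selective (sequential) pseudocompactness is not preserved by `G`-equivalence

For every commutative topological group `G` the spaces `K ⊕ A(ℕ × C)` and `Z ⊕ {pt}` are
`G`-equivalent, where `A` stands for the one point compactification and `Z ⊆ A(ℕ × C) × K` is
the union of `{∞} × K` and of the graph of a continuous map `e : ℕ × C → K` such that open subsets
of infinitely many pieces `{n} × C` always have a cluster point in `K`
(`Q175.GEq.gequiv`).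

For the first question, `C` is a point, `K = 2 ^ 𝒫(ℕ)` and `e` is the evaluation map, a sequence
without convergent subsequences. For the second one, `C` is the Cantor space, and `K` is a dense
subspace of a product of two powers of the two point space, such that no selection
`c n ∈ C` yields a cluster point of the sequence `e (n, c n)`.
-/

open Set Filter Topology OnePoint
open Q175.GEq

namespace Pool.Agent.Results.MP_c4a8f9_gt.NotPreserved

/-- Selectively sequentially pseudocompact spaces. -/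
def SelectivelySequentiallyPseudocompact (X : Type*) [TopologicalSpace X] : Prop :=
  ∀ U : ℕ → Set X, (∀ n, IsOpen (U n) ∧ (U n).Nonempty) →
    ∃ x : ℕ → X, (∀ n, x n ∈ U n) ∧
      ∃ φ : ℕ → ℕ, StrictMono φ ∧ ∃ z, Tendsto (fun k => x (φ k)) atTop (𝓝 z)

/-- Selectively pseudocompact spaces. -/
def SelectivelyPseudocompact (X : Type*) [TopologicalSpace X] : Prop :=
  ∀ U : ℕ → Set X, (∀ n, IsOpen (U n) ∧ (U n).Nonempty) → (∀ m n, m ≠ n → Disjoint (U m) (U n)) →
    ∃ x : ℕ → X, (∀ n, x n ∈ U n) ∧ ¬ IsClosed {y | ∃ n, y = x n}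

/-! ### General facts -/

theorem ssp_of {X : Type*} [TopologicalSpace X]
    (h : ∀ U : ℕ → Set X, (∀ n, IsOpen (U n) ∧ (U n).Nonempty) → ∃ φ : ℕ → ℕ, StrictMono φ ∧
      ∃ y : ℕ → X, (∀ k, y k ∈ U (φ k)) ∧ ∃ z, Tendsto y atTop (𝓝 z)) :
    SelectivelySequentiallyPseudocompact X := by
  classical
  intro U hU
  obtain ⟨φ, hφ, y, hy, z, hz⟩ := h U hU
  choose u hu using fun n => (hU n).2
  refine ⟨fun n => if h : ∃ k, φ k = n then y h.choose else u n, fun n => ?_, φ, hφ, z, ?_⟩
  · by_cases h : ∃ k, φ k = n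
    · simp only [dif_pos h]
      have := hy h.choose
      rwa [h.choose_spec] at this
    · simp only [dif_neg h]
      exact hu n
  · refine hz.congr fun k => ?_
    have h : ∃ k', φ k' = φ k := ⟨k, rfl⟩
    simp only [dif_pos h]
    rw [hφ.injective h.choose_spec]

theorem ssp_sum {X Y : Type*} [TopologicalSpace X] [TopologicalSpace Y]
    (hX : SelectivelySequentiallyPseudocompact X) (hY : SelectivelySequentiallyPseudocompact Y) :
    SelectivelySequentiallyPseudocompact (X ⊕ Y) := by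
  refine ssp_of fun U hU => ?_
  by_cases hinf : {n | (Sum.inl ⁻¹' U n : Set X).Nonempty}.Infinite
  · obtain ⟨ψ, hψ, hψU⟩ := extraction_of_frequently_atTop (Nat.frequently_atTop_iff_infinite.2 hinf)
    obtain ⟨x, hx, φ, hφ, z, hz⟩ := hX (fun k => Sum.inl ⁻¹' U (ψ k)) fun k =>
      ⟨(hU _).1.preimage continuous_inl, hψU k⟩
    exact ⟨fun k => ψ (φ k), hψ.comp hφ, fun k => Sum.inl (x (φ k)), fun k => hx (φ k), Sum.inl z,
      (continuous_inl.tendsto z).comp hz⟩
  · have hinf' : {n | (Sum.inr ⁻¹' U n : Set Y).Nonempty}.Infinite := by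
      rw [Set.not_infinite] at hinf
      refine hinf.infinite_compl.mono fun n hn => ?_
      obtain ⟨x | y, hx⟩ := (hU n).2
      · exact absurd ⟨x, hx⟩ hn
      · exact ⟨y, hx⟩
    obtain ⟨ψ, hψ, hψU⟩ := extraction_of_frequently_atTop
      (Nat.frequently_atTop_iff_infinite.2 hinf')
    obtain ⟨x, hx, φ, hφ, z, hz⟩ := hY (fun k => Sum.inr ⁻¹' U (ψ k)) fun k =>
      ⟨(hU _).1.preimage continuous_inr, hψU k⟩
    exact ⟨fun k => ψ (φ k), hψ.comp hφ, fun k => Sum.inr (x (φ k)), fun k => hx (φ k), Sum.inr z,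
      (continuous_inr.tendsto z).comp hz⟩

theorem ssp_onePoint : SelectivelySequentiallyPseudocompact (OnePoint (ℕ × Unit)) := by
  refine ssp_of fun U hU => ?_
  choose x hx using fun n => (hU n).2
  by_cases h : ∃ v, {n | x n = v}.Infinite
  · obtain ⟨v, hv⟩ := h
    obtain ⟨φ, hφ, hφv⟩ := extraction_of_frequently_atTop (Nat.frequently_atTop_iff_infinite.2 hv)
    refine ⟨φ, hφ, fun k => x (φ k), fun k => hx _, v, ?_⟩
    refine tendsto_const_nhds.congr fun k => ?_
    exact (hφv k).symm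
  · push Not at h
    refine ⟨id, strictMono_id, x, hx, ∞, ?_⟩
    rw [← Nat.cofinite_eq_atTop]
    intro A hA
    obtain ⟨F, hF, hFA⟩ := fin_of_mem hA
    rw [Filter.mem_map, Filter.mem_cofinite]
    refine (hF.biUnion fun m _ => h ((m, ()) : ℕ × Unit)).subset fun n hn => ?_
    have hn' : x n ∉ A := hn
    rcases hxn : x n with _ | ⟨m, u⟩
    · rw [hxn] at hn'
      exact absurd (mem_of_mem_nhds hA) hn'
    · rw [hxn] at hn'
      have hm : m ∈ F := by_contra fun hm => hn' (hFA (m, u) hm)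
      exact mem_iUnion₂.2 ⟨m, hm, hxn⟩

/-- The restriction of a point to a finite set. -/
def cut {I : Type*} [DecidableEq I] (y : I → Bool) (F : Finset I) : I → Bool :=
  fun i => y i && decide (i ∈ F)

theorem tendsto_cut {I : Type*} [DecidableEq I] (y : I → Bool) :
    Tendsto (cut y) atTop (𝓝 y) := by
  rw [tendsto_pi_nhds]
  intro i
  refine tendsto_const_nhds.congr' ?_
  filter_upwards [eventually_ge_atTop {i}] with F hF
  have : i ∈ F := hF (Finset.mem_singleton_self i)
  simp [cut, this]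

theorem ssp_pi (I : Type) : SelectivelySequentiallyPseudocompact (I → Bool) := by
  classical
  refine ssp_of fun U hU => ?_
  choose u hu using fun n => (hU n).2
  have h1 : ∀ n, ∃ F : Finset I, cut (u n) F ∈ U n := fun n =>
    ((tendsto_cut (u n)).eventually ((hU n).1.mem_nhds (hu n))).exists
  choose F hF using h1
  let A : Set I := ⋃ n, (F n : Set I)
  have hA : A.Countable := countable_iUnion fun n => (F n).countable_toSet
  have : Countable A := hA.to_subtype
  obtain ⟨a, φ, hφ, ha⟩ := CompactSpace.tendsto_subseq fun n => fun i : A => cut (u n) (F n) i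
  refine ⟨φ, hφ, fun k => cut (u (φ k)) (F (φ k)), fun k => hF (φ k),
    fun i => if h : i ∈ A then a ⟨i, h⟩ else false, ?_⟩
  rw [tendsto_pi_nhds]
  intro i
  by_cases h : i ∈ A
  · simp only [dif_pos h]
    exact (tendsto_pi_nhds.1 ha) ⟨i, h⟩
  · simp only [dif_neg h]
    refine tendsto_const_nhds.congr fun k => ?_
    have : i ∉ F (φ k) := fun hi => h (mem_iUnion.2 ⟨φ k, hi⟩)
    simp [cut, this]

/-! ### The first question -/

/-- The evaluation map, a sequence without convergent subsequences in a power of the two point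
space. -/
noncomputable def e₁ (l : ℕ × Unit) : Set ℕ → Bool := by
  classical
  exact fun A => decide (l.1 ∈ A)

theorem continuous_e₁ : Continuous e₁ := by
  have h1 : e₁ = (fun n : ℕ => e₁ (n, ())) ∘ Prod.fst := by
    funext ⟨n, u⟩
    rfl
  rw [h1]
  exact continuous_of_discreteTopology.comp continuous_fst

theorem clu_of_compact {C K : Type} [Nonempty C] [TopologicalSpace C] [TopologicalSpace K] [CompactSpace K]
    (e : ℕ × C → K) : Clu e := by
  intro N hN W hW
  choose! c hc using fun n hn => (hW n hn).2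
  obtain ⟨φ, hφ, hφN⟩ := extraction_of_frequently_atTop (Nat.frequently_atTop_iff_infinite.2 hN)
  obtain ⟨t, ht⟩ := exists_clusterPt_of_compactSpace (map (fun k => e (φ k, c (φ k))) atTop)
  refine ⟨t, fun O hO => ?_⟩
  have h1 : ∃ᶠ k in atTop, e (φ k, c (φ k)) ∈ O := (mapClusterPt_iff_frequently.1 ht) O hO
  have h2 := (Nat.frequently_atTop_iff_infinite.1 h1).image hφ.injective.injOn
  refine h2.mono ?_
  rintro _ ⟨k, hk, rfl⟩
  exact ⟨hφN k, c (φ k), hc _ (hφN k), hk⟩

theorem not_ssp : ¬ SelectivelySequentiallyPseudocompact (Zset e₁ ⊕ Unit) := by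
  classical
  intro h
  let V : ℕ → Set (Zset e₁) := fun n => {z | z.1.1 ∈
    (((↑) : ℕ × Unit → OnePoint (ℕ × Unit)) '' {(n, ())})}
  have hV : ∀ n, IsOpen (V n) := by
    intro n
    refine IsOpen.preimage (continuous_fst.comp continuous_subtype_val) ?_
    rw [isOpen_image_coe]
    exact isOpen_discrete _
  obtain ⟨x, hx, φ, hφ, z, hz⟩ := h (fun n => Sum.inl '' V n) fun n =>
    ⟨Topology.IsOpenEmbedding.inl.isOpenMap _ (hV n), ⟨_, zL e₁ (n, ()), ⟨(n, ()), rfl, rfl⟩, rfl⟩⟩
  let A : Set ℕ := {m | ∃ k, m = φ (2 * k)}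
  let f : Zset e₁ ⊕ Unit → Bool := Sum.elim (fun z => z.1.2 A) fun _ => false
  have hf : Continuous f := by
    refine continuous_sum_dom.2 ⟨?_, continuous_const⟩
    exact (continuous_apply A).comp (continuous_snd.comp continuous_subtype_val)
  have hfx : ∀ n, f (x n) = decide (n ∈ A) := by
    intro n
    obtain ⟨z, ⟨l, hl, hz1⟩, hz2⟩ := hx n
    rw [← hz2]
    show z.1.2 A = decide (n ∈ A)
    have h1 := z.2 l hz1.symm
    rw [h1]
    have h2 : l = (n, ()) := hl
    rw [h2]
    rfl
  have h1 : Tendsto (fun k => f (x (φ k))) atTop (𝓝 (f z)) := (hf.tendsto z).comp hz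
  have h2 : ∀ᶠ k in atTop, f (x (φ k)) = f z := by
    have := h1.eventually (IsOpen.mem_nhds (isOpen_discrete {f z}) rfl)
    exact this
  obtain ⟨m, hm⟩ := eventually_atTop.1 h2
  have h3 := hm (2 * m) (by omega)
  have h4 := hm (2 * m + 1) (by omega)
  rw [← h4, hfx, hfx] at h3
  have h5 : φ (2 * m) ∈ A := ⟨m, rfl⟩
  have h6 : φ (2 * m + 1) ∉ A := by
    rintro ⟨k, hk⟩
    have := hφ.injective hk
    omega
  simp [h5, h6] at h3

/-! ### The second question -/

theorem coord_mem_nhds {I : Type*} {t : I → Bool} {p : I} {b : Bool} (h : t p = b) :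
    {t' : I → Bool | t' p = b} ∈ 𝓝 t := by
  have h1 : Continuous fun t' : I → Bool => t' p := continuous_apply p
  exact IsOpen.mem_nhds ((isOpen_discrete {b}).preimage h1) h

theorem uncountable_C : Uncountable (ℕ → Bool) := by
  rw [← Cardinal.aleph0_lt_mk_iff]
  simp [Cardinal.aleph0_lt_continuum]

/-- The Cantor space. -/
abbrev C : Type := ℕ → Bool

/-- The index set. -/
abbrev I : Type := (ℕ → C) × (ℕ → ℕ)

/-- The map of `ℕ × C` into a power of the two point space. -/
def e₀ (l : ℕ × C) : I → Bool := fun p => decide (∀ i < p.2 l.1, l.2 i = p.1 l.1 i)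

theorem continuous_e₀ : Continuous e₀ := by
  refine continuous_pi fun p => ?_
  rw [continuous_prod_of_discrete_left]
  intro n
  rw [continuous_bool_rng true]
  have h1 : (fun c : C => e₀ (n, c) p) ⁻¹' {true} =
      ⋂ i ∈ Finset.range (p.2 n), {c : C | c i = p.1 n i} := by
    ext c
    simp [e₀]
  rw [h1]
  refine isClopen_biInter_finset fun i _ => ?_
  exact (isClopen_discrete {p.1 n i}).preimage (continuous_apply i)

/-- The points which are not cluster points of a selection. -/
def T : Set (I → Bool) := {t | ∀ d : ℕ → C, ∃ O ∈ 𝓝 t, {n | e₀ (n, d n) ∈ O}.Finite}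

theorem e₀_mem_T (l : ℕ × C) : e₀ l ∈ T := by
  classical
  obtain ⟨m, c⟩ := l
  intro d
  -- a point differing from `c`
  let d' : ℕ → C := fun n => if n = m then fun i => !(c i) else d n
  refine ⟨{t | t (d', fun _ => 1) = false}, ?_, ?_⟩
  · refine coord_mem_nhds ?_
    simp [e₀, d']
  · refine (finite_singleton m).subset fun n hn => ?_
    by_contra hnm
    have hn' : e₀ (n, d n) (d', fun _ => 1) = false := hn
    have hnm' : n ≠ m := hnm
    simp [e₀, d', hnm'] at hn'

/-- The space of the second example. -/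
def K₂ : Set ((I → Bool) × (C → Bool)) :=
  {q | {j | q.2 j = true}.Countable ∨ (q.1 ∈ T ∧ q.2 = fun _ => true)}

/-- The map of `ℕ × C` into the space of the second example. -/
def e₂ (l : ℕ × C) : K₂ := ⟨(e₀ l, fun _ => true), Or.inr ⟨e₀_mem_T l, rfl⟩⟩

theorem continuous_e₂ : Continuous e₂ :=
  Continuous.subtype_mk (continuous_e₀.prodMk continuous_const) _

theorem exists_cyl {W : Set C} (hW : IsOpen W) {w : C} (hw : w ∈ W) :
    ∃ m, ∀ c : C, (∀ i < m, c i = w i) → c ∈ W := by
  obtain ⟨J, u, hu, hJ⟩ := isOpen_pi_iff.1 hW w hw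
  refine ⟨J.sup id + 1, fun c hc => hJ fun i hi => ?_⟩
  rw [hc i (Nat.lt_succ_of_le (Finset.le_sup (f := id) hi))]
  exact (hu i hi).2

/-- A point of a cylinder which avoids finitely many shorter cylinders. -/
theorem exists_avoid (w : C) (m n : ℕ) (D : Finset (ℕ → C)) (hD : D.card ≤ n) :
    ∃ c : C, (∀ i < m, c i = w i) ∧ ∀ d ∈ D, ¬ ∀ i < m + n + 1, c i = d n i := by
  classical
  refine ⟨fun j => if j < m then w j else if h : j - m < D.card then
    !((D.equivFin.symm ⟨j - m, h⟩).1 n j) else false, ?_, ?_⟩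
  · intro i hi
    simp [hi]
  · intro d hd hall
    have hi := (D.equivFin ⟨d, hd⟩).2
    have h1 := hall (m + (D.equivFin ⟨d, hd⟩ : ℕ)) (by omega)
    have h2 : ¬ m + (D.equivFin ⟨d, hd⟩ : ℕ) < m := by omega
    have h3 : m + (D.equivFin ⟨d, hd⟩ : ℕ) - m = (D.equivFin ⟨d, hd⟩ : ℕ) := by omega
    simp only [h2, if_false, h3, hi, dif_pos, Fin.eta, Equiv.symm_apply_apply] at h1
    exact absurd h1 (by simp)

theorem clu_e₂ : Clu e₂ := by
  classical
  intro N hN W hW
  choose! w hw using fun n hn => (hW n hn).2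
  have hcyl : ∀ n, ∃ m, n ∈ N → ∀ c : C, (∀ i < m, c i = w n i) → c ∈ W n := by
    intro n
    by_cases hn : n ∈ N
    · obtain ⟨m, hm⟩ := exists_cyl (hW n hn).1 (hw n hn)
      exact ⟨m, fun _ => hm⟩
    · exact ⟨0, fun h => absurd h hn⟩
  choose m hm using hcyl
  let ℓ : ℕ → ℕ := fun n => m n + n + 1
  have hex : ∀ p : Finset (ℕ → C) × ℕ, ∃ n, ∃ c, n ∈ N ∧ p.2 ≤ n ∧ c ∈ W n ∧
      ∀ d ∈ p.1, e₀ (n, c) (d, ℓ) = false := by
    rintro ⟨D, a⟩
    obtain ⟨n, hn, hna⟩ := hN.exists_gt (max a D.card)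
    obtain ⟨c, hc1, hc2⟩ := exists_avoid (w n) (m n) n D
      ((le_max_right _ _).trans hna.le)
    refine ⟨n, c, hn, (le_max_left _ _).trans hna.le, hm n hn c hc1, fun d hd => ?_⟩
    simpa [e₀, ℓ] using hc2 d hd
  choose ν c hνN hνa hcW hcd using hex
  obtain ⟨t, ht⟩ := exists_clusterPt_of_compactSpace
    (map (fun p : Finset (ℕ → C) × ℕ => e₀ (ν p, c p)) atTop)
  have hfr : ∀ O ∈ 𝓝 t, ∃ᶠ p in atTop, e₀ (ν p, c p) ∈ O := mapClusterPt_iff_frequently.1 ht
  have htd : ∀ d, t (d, ℓ) = false := by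
    intro d
    by_contra hne
    have hO : {t' : I → Bool | t' (d, ℓ) = true} ∈ 𝓝 t := by
      refine coord_mem_nhds ?_
      simpa using hne
    have h1 : ∀ᶠ p : Finset (ℕ → C) × ℕ in atTop, e₀ (ν p, c p) (d, ℓ) = false := by
      filter_upwards [eventually_ge_atTop (({d} : Finset (ℕ → C)), 0)] with p hp
      exact hcd p d (hp.1 (Finset.mem_singleton_self d))
    obtain ⟨p, hp1, hp2⟩ := ((hfr _ hO).and_eventually h1).exists
    have hp1' : e₀ (ν p, c p) (d, ℓ) = true := hp1
    rw [hp2] at hp1'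
    cases hp1'
  have htT : t ∈ T := by
    intro d
    refine ⟨{t' | t' (d, ℓ) = false}, coord_mem_nhds (htd d), ?_⟩
    refine finite_empty.subset fun n hn => ?_
    have hn' : e₀ (n, d n) (d, ℓ) = false := hn
    simp [e₀] at hn'
  refine ⟨⟨(t, fun _ => true), Or.inr ⟨htT, rfl⟩⟩, fun O hO => ?_⟩
  rw [nhds_subtype, Filter.mem_comap] at hO
  obtain ⟨Q, hQ, hQO⟩ := hO
  rw [nhds_prod_eq, Filter.mem_prod_iff] at hQ
  obtain ⟨O₁, hO₁, O₂, hO₂, hQ⟩ := hQ
  refine Set.infinite_of_forall_exists_gt fun a => ?_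
  obtain ⟨p, hp1, hp2⟩ := ((hfr O₁ hO₁).and_eventually
    (eventually_ge_atTop ((∅ : Finset (ℕ → C)), a + 1))).exists
  refine ⟨ν p, ⟨hνN p, c p, hcW p, hQO ?_⟩, ?_⟩
  · exact hQ ⟨hp1, mem_of_mem_nhds hO₂⟩
  · have h1 : a + 1 ≤ p.2 := hp2.2
    have h2 := hνa p
    omega

theorem sp_of_compact {X : Type*} [TopologicalSpace X] {U : ℕ → Set X} (hU : ∀ n, IsOpen (U n))
    (hdisj : ∀ m n, m ≠ n → Disjoint (U m) (U n)) {x : ℕ → X} (hx : ∀ n, x n ∈ U n) {Q : Set X}
    (hQ : IsCompact Q) (hxQ : ∀ n, x n ∈ Q) : ¬ IsClosed {y | ∃ n, y = x n} := by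
  intro hcl
  have hc : IsCompact {y | ∃ n, y = x n} := hQ.of_isClosed_subset hcl (by
    rintro _ ⟨n, rfl⟩
    exact hxQ n)
  obtain ⟨s, hs⟩ := hc.elim_finite_subcover U hU (by
    rintro _ ⟨n, rfl⟩
    exact mem_iUnion.2 ⟨n, hx n⟩)
  obtain ⟨m, hm⟩ := Infinite.exists_notMem_finset s
  obtain ⟨n, hn, hmn⟩ := mem_iUnion₂.1 (hs ⟨m, rfl⟩)
  have hne : m ≠ n := fun h => hm (h ▸ hn)
  exact Set.disjoint_left.1 (hdisj m n hne) (hx m) hmn

/-- Compact subsets of the space. -/
noncomputable def mS (S : Set C) (hS : S.Countable) (q : (I → Bool) × (C → Bool)) : K₂ := by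
  classical
  exact ⟨(q.1, fun j => q.2 j && decide (j ∈ S)), Or.inl (hS.mono fun j hj => by
    have : (q.2 j && decide (j ∈ S)) = true := hj
    simp only [Bool.and_eq_true, decide_eq_true_eq] at this
    exact this.2)⟩

theorem continuous_mS (S : Set C) (hS : S.Countable) : Continuous (mS S hS) := by
  classical
  refine Continuous.subtype_mk (continuous_fst.prodMk (continuous_pi fun j => ?_)) _
  have h1 : Continuous fun b : Bool => (b && decide (j ∈ S)) := continuous_of_discreteTopology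
  exact h1.comp ((continuous_apply j).comp continuous_snd)

theorem exists_small {U : Set K₂} (hU : IsOpen U) (hne : U.Nonempty) :
    ∃ q ∈ U, {j | q.1.2 j = true}.Countable := by
  classical
  obtain ⟨⟨⟨t, y⟩, hq⟩, hqU⟩ := hne
  have hcnt : ∀ F : Finset C, {j | cut y F j = true}.Countable := by
    intro F
    refine F.countable_toSet.mono fun j hj => ?_
    have : (y j && decide (j ∈ F)) = true := hj
    simp only [Bool.and_eq_true, decide_eq_true_eq] at this
    exact this.2
  let g : Finset C → K₂ := fun F => ⟨(t, cut y F), Or.inl (hcnt F)⟩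
  have hg : Tendsto g atTop (𝓝 ⟨(t, y), hq⟩) := by
    rw [tendsto_subtype_rng]
    exact tendsto_const_nhds.prodMk_nhds (tendsto_cut y)
  obtain ⟨F, hF⟩ := (hg.eventually (hU.mem_nhds hqU)).exists
  exact ⟨g F, hF, hcnt F⟩

theorem sp_X : SelectivelyPseudocompact (K₂ ⊕ OnePoint (ℕ × C)) := by
  classical
  intro U hU hdisj
  have h1 : ∀ n, ∃ x ∈ U n, ∃ S : Set C, S.Countable ∧
      ∀ q : K₂, x = Sum.inl q → {j | q.1.2 j = true} ⊆ S := by
    intro n
    by_cases hne : (Sum.inl ⁻¹' U n : Set K₂).Nonempty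
    · obtain ⟨q, hq, hqc⟩ := exists_small ((hU n).1.preimage continuous_inl) hne
      refine ⟨Sum.inl q, hq, _, hqc, fun q' hq' => ?_⟩
      rw [Sum.inl_injective hq']
    · obtain ⟨x, hx⟩ := (hU n).2
      refine ⟨x, hx, ∅, countable_empty, fun q hq => ?_⟩
      exact absurd ⟨q, show Sum.inl q ∈ U n from hq ▸ hx⟩ hne
  choose x hx S hS hxS using h1
  refine ⟨x, hx, sp_of_compact (fun n => (hU n).1) hdisj hx
    (Q := Sum.inl '' range (mS (⋃ n, S n) (countable_iUnion hS)) ∪ range Sum.inr) ?_ ?_⟩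
  · exact ((isCompact_range (continuous_mS _ _)).image continuous_inl).union
      (isCompact_range continuous_inr)
  · intro n
    rcases hxn : x n with q | w
    · refine Or.inl ⟨q, ⟨q.1, ?_⟩, rfl⟩
      refine Subtype.ext (Prod.ext rfl ?_)
      funext j
      show (q.1.2 j && decide (j ∈ ⋃ n, S n)) = q.1.2 j
      rcases hj : q.1.2 j with _ | _
      · rfl
      · have : j ∈ ⋃ n, S n := mem_iUnion.2 ⟨n, hxS n q hxn hj⟩
        simp [this]
    · exact Or.inr ⟨w, rfl⟩

theorem not_sp : ¬ SelectivelyPseudocompact (Zset e₂ ⊕ Unit) := by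
  classical
  intro h
  let V : ℕ → Set (Zset e₂) := fun n => {z | z.1.1 ∈
    (((↑) : ℕ × C → OnePoint (ℕ × C)) '' {l | l.1 = n})}
  have hV : ∀ n, IsOpen (V n) := by
    intro n
    refine IsOpen.preimage (continuous_fst.comp continuous_subtype_val) ?_
    rw [isOpen_image_coe]
    exact (isOpen_discrete {n}).preimage continuous_fst
  have hVmem : ∀ n, ∀ z ∈ V n, ∃ c, z = zL e₂ (n, c) := by
    rintro n z ⟨⟨m, c⟩, hl, hz⟩
    have hm : m = n := hl
    subst hm
    refine ⟨c, Subtype.ext (Prod.ext hz.symm ?_)⟩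
    exact z.2 (m, c) hz.symm
  obtain ⟨x, hx, hncl⟩ := h (fun n => Sum.inl '' V n)
    (fun n => ⟨Topology.IsOpenEmbedding.inl.isOpenMap _ (hV n),
      ⟨_, zL e₂ (n, fun _ => true), ⟨(n, fun _ => true), rfl, rfl⟩, rfl⟩⟩)
    (by
      intro m n hmn
      rw [Set.disjoint_left]
      rintro _ ⟨z, ⟨l, hl, hz⟩, rfl⟩ ⟨z', ⟨l', hl', hz'⟩, hzz⟩
      have h1 : z' = z := Sum.inl_injective hzz
      subst h1
      rw [← hz] at hz'
      have h2 := OnePoint.coe_injective hz'
      subst h2
      exact hmn (hl.symm.trans hl'))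
  apply hncl
  have h1 : ∀ n, ∃ c, x n = Sum.inl (zL e₂ (n, c)) := by
    intro n
    obtain ⟨z, hz, hzx⟩ := hx n
    obtain ⟨c, hc⟩ := hVmem n z hz
    exact ⟨c, by rw [← hzx, hc]⟩
  choose c hc using h1
  have hlf : LocallyFinite fun n => ({zL e₂ (n, c n)} : Set (Zset e₂)) := by
    intro z
    have key : ∀ O ∈ 𝓝 z, {n | zL e₂ (n, c n) ∈ O}.Finite →
        ∃ t ∈ 𝓝 z, {n | (({zL e₂ (n, c n)} : Set (Zset e₂)) ∩ t).Nonempty}.Finite := by
      intro O hO hfin
      refine ⟨O, hO, hfin.subset ?_⟩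
      rintro n ⟨z', hz', hz'O⟩
      rw [mem_singleton_iff.1 hz'] at hz'O
      exact hz'O
    rcases cases_Z e₂ z with ⟨⟨⟨t, y⟩, hk⟩, rfl⟩ | ⟨⟨m, d⟩, rfl⟩
    · rcases hk with hy | ⟨ht, hy⟩
      · have h2 : ∃ j, y j = false := by
          by_contra hcon
          push Not at hcon
          have h3 : {j | y j = true} = univ := by
            ext j
            simpa using hcon j
          have h4 : {j | y j = true}.Countable := hy
          rw [h3] at h4
          have := uncountable_C
          exact not_countable_univ h4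
        obtain ⟨j, hj⟩ := h2
        refine key {z | z.1.2.1.2 j = false} ?_ ?_
        · refine IsOpen.mem_nhds ?_ hj
          have h5 : Continuous fun z : Zset e₂ => z.1.2.1.2 j :=
            (continuous_apply j).comp (continuous_snd.comp (continuous_subtype_val.comp
              (continuous_snd.comp continuous_subtype_val)))
          exact (isOpen_discrete {false}).preimage h5
        · refine finite_empty.subset fun n hn => ?_
          have hn' : true = false := hn
          cases hn'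
      · obtain ⟨O, hO, hfin⟩ := ht c
        refine key {z | z.1.2.1.1 ∈ O} ?_ hfin
        have h5 : Continuous fun z : Zset e₂ => z.1.2.1.1 :=
          continuous_fst.comp (continuous_subtype_val.comp
            (continuous_snd.comp continuous_subtype_val))
        exact h5.continuousAt.preimage_mem_nhds hO
    · refine key (V m) ((hV m).mem_nhds ⟨(m, d), rfl, rfl⟩) ((finite_singleton m).subset ?_)
      rintro n ⟨l, hl, hln⟩
      have h6 : l = (n, c n) := OnePoint.coe_injective hln
      rw [h6] at hl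
      exact hl
  have h2 := hlf.isClosed_iUnion fun n => isClosed_singleton
  have h3 : {y | ∃ n, y = x n} = Sum.inl '' ⋃ n, ({zL e₂ (n, c n)} : Set (Zset e₂)) := by
    ext y
    constructor
    · rintro ⟨n, rfl⟩
      exact ⟨zL e₂ (n, c n), mem_iUnion.2 ⟨n, rfl⟩, (hc n).symm⟩
    · rintro ⟨z, hz, rfl⟩
      obtain ⟨n, hn⟩ := mem_iUnion.1 hz
      exact ⟨n, by rw [hc n, mem_singleton_iff.1 hn]⟩
  rw [h3]
  exact Topology.IsClosedEmbedding.inl.isClosedMap _ h2

/-- Neither selective sequential pseudocompactness nor selective pseudocompactness is preserved by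
`G`-equivalence, for any commutative topological group `G`. -/
theorem result :
    (∃ (X Y : Type) (_ : TopologicalSpace X) (_ : TopologicalSpace Y),
      T35Space X ∧ T35Space Y ∧
      (∀ (G : Type*) [CommGroup G] [TopologicalSpace G] [IsTopologicalGroup G],
        Dense (Cp X G : Set (X → G)) ∧ Dense (Cp Y G : Set (Y → G)) ∧ GEquivalent G X Y) ∧
      SelectivelySequentiallyPseudocompact X ∧ ¬ SelectivelySequentiallyPseudocompact Y) ∧
    (∃ (X Y : Type) (_ : TopologicalSpace X) (_ : TopologicalSpace Y),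
      T35Space X ∧ T35Space Y ∧
      (∀ (G : Type*) [CommGroup G] [TopologicalSpace G] [IsTopologicalGroup G],
        Dense (Cp X G : Set (X → G)) ∧ Dense (Cp Y G : Set (Y → G)) ∧ GEquivalent G X Y) ∧
      SelectivelyPseudocompact X ∧ ¬ SelectivelyPseudocompact Y) := by
  refine ⟨⟨(Set ℕ → Bool) ⊕ OnePoint (ℕ × Unit), Zset e₁ ⊕ Unit, inferInstance, inferInstance,
    inferInstance, inferInstance, ?_, ssp_sum (ssp_pi _) ssp_onePoint, not_ssp⟩,
    ⟨K₂ ⊕ OnePoint (ℕ × C), Zset e₂ ⊕ Unit, inferInstance, inferInstance,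
    inferInstance, inferInstance, ?_, sp_X, not_sp⟩⟩
  · intro G _ _ _
    have hA : Sep (OnePoint (ℕ × Unit)) := sep_onePoint sep_unit
    exact ⟨dense_Cp ((sep_pi _).sum hA), dense_Cp (Sep.sum (((hA.prod (sep_pi _)).of_inj
      continuous_subtype_val Subtype.val_injective)) sep_unit),
      gequiv continuous_e₁ (clu_of_compact _) G⟩
  · intro G _ _ _
    have hA : Sep (OnePoint (ℕ × C)) := sep_onePoint (sep_pi _)
    have hK : Sep K₂ := ((sep_pi _).prod (sep_pi _)).of_inj continuous_subtype_val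
      Subtype.val_injective
    exact ⟨dense_Cp (hK.sum hA), dense_Cp (Sep.sum (((hA.prod hK).of_inj
      continuous_subtype_val Subtype.val_injective)) sep_unit),
      gequiv continuous_e₂ clu_e₂ G⟩

end Pool.Agent.Results.MP_c4a8f9_gt.NotPreserved
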